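import Pool.Agent.Helper22.HW.Keys
import Pool.Agent.Helper30.T5b.SizeDefs
import Pool.Agent.Helper57.T5.Tower
import Pool.Agent.Helper42.T5.Pr
import Pool.Agent.Helper39.T5.Tup
import Pool.Agent.Helper50.T5.Win

/-!
# T5b: definitions (MP_12a1af), variant S (notes 3111 and 3115)

Parameters: `m` (sizes `SS m (t + 1) ≈ SS m t ^ (1 + 1 / m)`) and `k` (number of active static
levels).  A state is an index `l` of the chain of `Helper37.T5b`: main digits of T4', digits of the
buffer family, digits of the newborn triples.  `l1 (ins m k) l` main digits lie below `l`.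

* `sL m k l` = number of split levels, `bL m k l` = index of the last dropped level; the state `l`
  has `rL = sL - bL` static levels `t = 0, ..., rL - 1`; the level `t` is the triple `sL - t`
  (`t = 0` is the outermost one);
* joint level: families `Fin 3` (main) and `Fin 4` (`0` = buffer family, `f + 1` = family `f` of the
  newborn triple `sL + 1`); extras hash no joint family and are hashed by no joint family;
* `Jn m k s l` = product of the joint digits below `l` (if `s` triples are split off);
* fronts: `FF m k l t = Jn m k s (ez m (s - t) l)`, `t = 0` is the front of the joint level,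
  `t + 1` the front of the static level `t`;
* the tables of the static level `0` are keyed by the masked vector of the extras (outer key).

An element of the state `l` is `c0 x + ∑ t, cs t (y t) + Un m k l * v` with `Un * RT m k b = NL`,
`v ∈ [RT m k b, 16 * RT m k b)` in the random window set.
-/

set_option autoImplicit false

namespace Pool.Agent.Helper84.T5b

open Finset Pool.Agent.Helper5.ET Pool.Agent.Helper27.T4
open Pool.Agent.Helper27.T5b Pool.Agent.Helper37.T5b Pool.Agent.Helper30.T5b
open Pool.Agent.Helper22.HW Pool.Agent.Helper57.T5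
open Pool.Agent.Helper39.T5 Pool.Agent.Helper50.T5 Pool.Agent.Helper42.T5.Pr
open Pool.Agent.Helper27.T5 (sp gw)

/-! ## families and keys -/

/-- the joint families: main families and extras (`inr 0` = buffer, `inr (f + 1)` = newborn) -/
abbrev JF : Type := Fin 3 ⊕ Fin 4

/-- the random keys -/
inductive Key where
  /-- hash value of the joint family `i` at the masked vector `x` in the state `l` -/
  | J (l : ℕ) (i : JF) (x : JF → ℕ)
  /-- hash value of the family `f` of the static level `t` in the state `l`, with the outer key `o`
  and the masked vector `y` -/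
  | S (l t : ℕ) (f : Fin 3) (o : JF → ℕ) (y : Fin 3 → ℕ)
  /-- offset of the window element in the block number `b` of level `L` -/
  | V (l L b : ℕ)
  deriving DecidableEq

/-! ## moduli -/

theorem pz_prime (k j : ℕ) (f : Fin 3) : (pz k j f).Prime :=
  Pool.Agent.Helper30.T5.sp_prime _

theorem pz_inj (k j : ℕ) : Function.Injective (pz k j) := by
  intro f g h
  have h1 := Pool.Agent.Helper30.T5.sp_injective h
  exact Fin.ext (by omega)

/-- the primes of the joint families if `s` triples are split off -/
noncomputable def pJ (k s : ℕ) : JF → ℕ :=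
  Sum.elim pr (Fin.cases 1000039 (fun f => pz k (s + 1) f))

/-- the number of digits below `l` of the joint families if `s` triples are split off -/
noncomputable def aJ (m k s l : ℕ) : JF → ℕ :=
  Sum.elim (fun f => ct (ins m k) own (ex m k) (Sum.inl f) l)
    (Fin.cases (ct (ins m k) own (ex m k) (Sum.inr none) l)
      (fun f => ct (ins m k) own (ex m k) (Sum.inr (some (s + 1, f))) l))

theorem pJ_prime (k s : ℕ) (i : JF) : (pJ k s i).Prime := by
  rcases i with f | i
  · exact pr_prime f
  · refine Fin.cases ?_ (fun f => ?_) i
    · show (1000039 : ℕ).Prime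
      norm_num
    · exact pz_prime k (s + 1) f

theorem pJ_inj (k s : ℕ) : Function.Injective (pJ k s) := by
  have hpr : ∀ f : Fin 3, pr f ≠ 1000039 := by
    intro f
    fin_cases f <;> simp [pr]
  have hpj : ∀ f : Fin 3, pz k (s + 1) f ≠ 1000039 := by
    intro f
    have h := Pool.Agent.Helper30.T5.lt_sp (3 * ((s + 1) % (k + 3)) + f)
    unfold pz
    omega
  have hpp : ∀ f g : Fin 3, pr f ≠ pz k (s + 1) g := by
    intro f g
    exact (Pool.Agent.Helper30.T5.pr_lt_sp f _).ne
  rintro (f | i) (g | j) h
  · exact congrArg Sum.inl (pr_inj h)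
  · exfalso
    revert h
    refine Fin.cases (fun h => hpr f h) (fun g h => hpp f g h) j
  · exfalso
    revert h
    refine Fin.cases (fun h => hpr g h.symm) (fun f h => hpp g f h.symm) i
  · refine congrArg Sum.inr ?_
    revert h
    refine Fin.cases ?_ (fun f => ?_) i
    · refine Fin.cases (fun _ => rfl) (fun g h => absurd h.symm (hpj g)) j
    · refine Fin.cases (fun h => absurd h (hpj f)) (fun g h => ?_) j
      exact congrArg Fin.succ (pz_inj k (s + 1) h)

/-- product of the joint digits below `l` if `s` triples are split off -/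
noncomputable def Jn (m k s l : ℕ) : ℕ := NN (pJ k s) (aJ m k s l)

/-! ## the state -/

/-- number of main digits below `l` -/
noncomputable def mL (m k l : ℕ) : ℕ := l1 (ins m k) l

/-- number of split levels of the state `l` -/
noncomputable def sL (m k l : ℕ) : ℕ := sv m k (mL m k l)

/-- the last dropped level of the state `l` -/
noncomputable def bL (m k l : ℕ) : ℕ := dv m k (mL m k l) - k

/-- number of static levels of the state `l` -/
noncomputable def rL (m k l : ℕ) : ℕ := sL m k l - bL m k l

/-- modulus of the static level `t` if `s` triples are split off -/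
noncomputable def QQ (m k s t : ℕ) : ℕ := QT m k (s - t)

/-- position of the front number `t` -/
noncomputable def ef (m k l t : ℕ) : ℕ := ez m (sL m k l - t) l

/-- the front number `t`: `0` = joint level, `t + 1` = static level `t` -/
noncomputable def FF (m k l t : ℕ) : ℕ := Jn m k (sL m k l) (ef m k l t)

/-- number of values of a key -/
noncomputable def Mk (m k : ℕ) : Key → ℕ
  | Key.J l i _ => pJ k (sL m k l) i ^ aJ m k (sL m k l) (ef m k l 0) i
  | Key.S l t f _ _ => pz k (sL m k l - t) f ^ zf m k (sL m k l - t) f
  | Key.V _ L _ => 2 ^ L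

theorem Mk_pos (m k : ℕ) (q : Key) : 0 < Mk m k q := by
  cases q with
  | J l i x => exact pow_pos (pJ_prime k _ i).pos _
  | S l t f o y => exact pow_pos (pz_prime k _ f).pos _
  | V l L b => exact pow_pos (by norm_num) _

/-! ## the joint level -/

/-- `x` restricted to a set of joint families -/
def maskJ (P : Finset JF) (x : JF → ℕ) : JF → ℕ := fun i => if i ∈ P then x i else 0

/-- the joint families which hash `i` at the index `l` -/
noncomputable def preJ (m k l : ℕ) : JF → Finset JF
  | Sum.inl f => (pre (mL m k l) f).image Sum.inl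
  | Sum.inr _ => ∅

/-- the components of the joint code -/
noncomputable def cmp0 (m k l : ℕ) (w : Key → ℕ) (x : JF → ℕ) (i : JF) :
    ZMod (pJ k (sL m k l) i ^ aJ m k (sL m k l) (ef m k l 0) i) :=
  Lg (pJ k (sL m k l) i) (aJ m k (sL m k l) (ef m k l 0) i) (x i) +
    ((w (Key.J l i (maskJ (preJ m k l i) x)) : ℕ) :
      ZMod (pJ k (sL m k l) i ^ aJ m k (sL m k l) (ef m k l 0) i))

/-- the joint code, a number `< FF m k l 0` -/
noncomputable def c0 (m k l : ℕ) (w : Key → ℕ) (x : JF → ℕ) : ℕ :=
  cv (pJ_prime k (sL m k l)) (pJ_inj k (sL m k l)) (aJ m k (sL m k l) (ef m k l 0))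
    (cmp0 m k l w x)

/-- admissible joint vectors: `1` for a family without digits, else primes -/
noncomputable def XJ (m k l : ℕ) : Finset (JF → ℕ) :=
  Fintype.piFinset (fun i => if aJ m k (sL m k l) l i = 0 then {1}
    else T1 (pJ k (sL m k l) i) (aJ m k (sL m k l) l i))

/-! ## the static levels -/

open Classical in
/-- the families which key the outermost static level -/
noncomputable def okeyF (m k l : ℕ) : Finset JF :=
  if keyed m k (mL m k l) then univ.filter (fun i => i.isRight) else {Sum.inr 0}

/-- the outer key of the static level `t` -/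
noncomputable def okey (m k l t : ℕ) (x : JF → ℕ) : JF → ℕ :=
  if t = 0 then maskJ (okeyF m k l) x else 0

/-- the static level `t` of the state `l` with the outer key `o` -/
noncomputable def Ss (m k l t : ℕ) (o : JF → ℕ) : Side (pz k (sL m k l - t)) Key :=
  ⟨FF m k l (t + 1) * LL (QQ m k (sL m k l)) t, zf m k (sL m k l - t), zf m k (sL m k l - t),
    fun f y => Key.S l t f o (mask (univ.filter (fun g => g < f)) y)⟩

/-- the code of the static level `t` with the outer key `o` -/
noncomputable def cs (m k l t : ℕ) (w : Key → ℕ) (o : JF → ℕ) (y : Fin 3 → ℕ) : ℕ :=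
  (Ss m k l t o).cd (pz_prime k _) (pz_inj k _) w y

/-- admissible triples of the static level `t` -/
noncomputable def Ys (m k l t : ℕ) : Finset (Fin 3 → ℕ) :=
  TT (pz k (sL m k l - t)) (zf m k (sL m k l - t))

/-! ## the window -/

/-- the unit of the window: `NL = Un * RT m k (bL m k l)` -/
noncomputable def Un (m k l : ℕ) : ℕ := Jn m k (sL m k l) l * LL (QQ m k (sL m k l)) (rL m k l)

/-- the window set -/
noncomputable def Vw (m k l : ℕ) (w : Key → ℕ) : Finset ℕ :=
  VW (RT m k (bL m k l)) (16 * RT m k (bL m k l)) (fun L b => w (Key.V l L b))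

/-! ## the sets -/

/-- the element with the joint vector `x`, the static vectors `y` and the window part `u` -/
noncomputable def el (m k l : ℕ) (w : Key → ℕ) (x : JF → ℕ)
    (y : Fin (rL m k l) → Fin 3 → ℕ) (u : ℕ) : ℕ :=
  (c0 m k l w x + ∑ t : Fin (rL m k l), cs m k l t w (okey m k l t x) (y t)) + u

/-- the set of the state `l` -/
noncomputable def AA (m k l : ℕ) (w : Key → ℕ) : Finset ℕ :=
  ((XJ m k l ×ˢ Fintype.piFinset (fun t : Fin (rL m k l) => Ys m k l t)) ×ˢ
    (Vw m k l w).image (fun v => Un m k l * v)).image (fun q => el m k l w q.1.1 q.1.2 q.2)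

/-- number of representations `n = a + a'` with `a` in the state `l`, `a'` in the state `l'` -/
noncomputable def Rp (m k l l' : ℕ) (w : Key → ℕ) (n : ℕ) : ℕ :=
  ((AA m k l w ×ˢ AA m k l' w).filter (fun q => q.1 + q.2 = n)).card

/-- bound for the coordinates of the keys of a state -/
noncomputable def Bd (m k l : ℕ) : ℕ := 17 * NL m k l + 2

/-- the keys of a state -/
noncomputable def keysOf (m k l : ℕ) : Finset Key :=
  ((univ ×ˢ Fintype.piFinset (fun _ : JF => range (Bd m k l))).image
      (fun q : JF × (JF → ℕ) => Key.J l q.1 q.2) ∪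
    ((range (rL m k l + 1) ×ˢ univ) ×ˢ (Fintype.piFinset (fun _ : JF => range (Bd m k l)) ×ˢ
      Fintype.piFinset (fun _ : Fin 3 => range (Bd m k l)))).image
      (fun q : (ℕ × Fin 3) × ((JF → ℕ) × (Fin 3 → ℕ)) => Key.S l q.1.1 q.1.2 q.2.1 q.2.2)) ∪
    (range (Bd m k l) ×ˢ range (Bd m k l)).image (fun q : ℕ × ℕ => Key.V l q.1 q.2)

end Pool.Agent.Helper84.T5b
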