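import Pool.Agent.Helper84.T5b.Pair
import Pool.Agent.Helper42.T5.Pairs
import Pool.Agent.Helper30.T5b.NLb
import Pool.Agent.Helper37.T5b.OneEvent
import Pool.Agent.Helper27.T5b.Range
import Pool.Agent.Helper50.T5b.Count

/-!
# T5b (MP_12a1af): the theorem from the block statements of `Pair.lean`
-/

set_option autoImplicit false

namespace Pool.Agent.Helper84.T5b

open Finset Pool.Agent.Helper5.ET Pool.Agent.Helper37.T5b Pool.Agent.Helper30.T5b
open Pool.Agent.Helper42.T5.Pr Pool.Agent.Helper42.T5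

/-! ## the shape -/

theorem PairOK.mono {m E E' : ℕ} {P P' : ℕ → ℕ → Prop}
    {Ct Ct' : ℕ → ℕ → (Key → ℕ) → ℕ → Prop} (h : PairOK m P Ct E) (hE : E ≤ E')
    (hP : ∀ l' l, P' l' l → P l' l)
    (hC : ∀ l l' w c, Ct' l l' w c → ∃ c', c ≤ c' ∧ Ct l l' w c') : PairOK m P' Ct' E' := by
  obtain ⟨K0, C1, c0, m', h1, h2, h3, h⟩ := h
  refine ⟨K0 + 1, C1, c0, m', h1, h2, h3, ?_⟩
  intro l l' hl' hll hp K hK hK'
  refine PrLe_mono (fun r _ hw => ?_) le_rfl (h l l' (by omega) hll (hP _ _ hp) K hK hK')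
  obtain ⟨c, hc, hlt⟩ := hw
  obtain ⟨c', hcc, hc'⟩ := hC l l' _ c hc
  refine ⟨c', hc', lt_of_le_of_lt (mul_le_mul_of_nonneg_left ?_ h1)
    (lt_of_lt_of_le hlt (by exact_mod_cast hcc))⟩
  refine Real.rpow_le_rpow_of_exponent_le ?_ ?_
  · exact_mod_cast (show 1 ≤ l by omega)
  · exact div_le_div_of_nonneg_right (by exact_mod_cast hE) (Nat.cast_nonneg _)

theorem PairOK.or {m E : ℕ} {P P' : ℕ → ℕ → Prop} {Ct : ℕ → ℕ → (Key → ℕ) → ℕ → Prop}
    (h : PairOK m P Ct E) (h' : PairOK m P' Ct E) :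
    PairOK m (fun l' l => P l' l ∨ P' l' l) Ct E := by
  obtain ⟨K0, C1, c0, m1, h1, h2, h3, h⟩ := h
  obtain ⟨K0', C1', c0', m1', h1', h2', h3', h'⟩ := h'
  refine ⟨max K0 K0' + 1, max C1 C1', min c0 c0', max m1 m1', le_max_of_le_left h1,
    lt_min h2 h2', le_max_of_le_left h3, ?_⟩
  intro l l' hl' hll hp K hK hK'
  have hl1 : (1 : ℝ) ≤ (l : ℝ) := by exact_mod_cast (show 1 ≤ l by omega)
  have hr : 0 ≤ (l : ℝ) ^ ((E : ℝ) / (m : ℝ)) := Real.rpow_nonneg (Nat.cast_nonneg _) _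
  rcases hp with hp | hp
  · refine PrLe_mono (fun w _ hw => ?_) ?_ (h l l' (by omega) hll hp K hK hK')
    · obtain ⟨c, hc, hn⟩ := hw
      exact ⟨c, hc, lt_of_le_of_lt (mul_le_mul_of_nonneg_right (le_max_left _ _) hr) hn⟩
    · refine mul_le_mul (le_max_left _ _) (Real.exp_le_exp.2 (neg_le_neg ?_))
        (Real.exp_pos _).le (le_max_of_le_left h3)
      exact Real.rpow_le_rpow_of_exponent_le hl1 (min_le_left _ _)
  · refine PrLe_mono (fun w _ hw => ?_) ?_ (h' l l' (by omega) hll hp K hK hK')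
    · obtain ⟨c, hc, hn⟩ := hw
      exact ⟨c, hc, lt_of_le_of_lt (mul_le_mul_of_nonneg_right (le_max_right _ _) hr) hn⟩
    · refine mul_le_mul (le_max_right _ _) (Real.exp_le_exp.2 (neg_le_neg ?_))
        (Real.exp_pos _).le (le_max_of_le_left h3)
      exact Real.rpow_le_rpow_of_exponent_le hl1 (min_le_right _ _)

theorem Blk.or {P P' : ℕ → ℕ → ℕ → ℕ → Prop} {Ct : ℕ → ℕ → ℕ → ℕ → (Key → ℕ) → ℕ → Prop}
    (h : Blk P Ct) (h' : Blk P' Ct) : Blk (fun m k l' l => P m k l' l ∨ P' m k l' l) Ct := by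
  obtain ⟨E, m0, h⟩ := h
  obtain ⟨E', m0', h'⟩ := h'
  refine ⟨max E E', max m0 m0', fun m hm => ?_⟩
  exact ((h m ((le_max_left _ _).trans hm)).mono (le_max_left _ _) (fun _ _ h => h)
    (fun _ _ _ c hc => ⟨c, le_rfl, hc⟩)).or
      ((h' m ((le_max_right _ _).trans hm)).mono (le_max_right _ _) (fun _ _ h => h)
        (fun _ _ _ c hc => ⟨c, le_rfl, hc⟩))

theorem Blk.mono {P P' : ℕ → ℕ → ℕ → ℕ → Prop} {Ct Ct' : ℕ → ℕ → ℕ → ℕ → (Key → ℕ) → ℕ → Prop}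
    (h : Blk P Ct) (hP : ∀ m k l' l, P' m k l' l → P m k l' l)
    (hC : ∀ m k l l' w c, Ct' m k l l' w c → ∃ c', c ≤ c' ∧ Ct m k l l' w c') : Blk P' Ct' := by
  obtain ⟨E, m0, h⟩ := h
  exact ⟨E, m0, fun m hm => (h m hm).mono le_rfl (fun l' l => hP m (m ^ 2) l' l)
    (fun l l' w c => hC m (m ^ 2) l l' w c)⟩

/-- a bound for the number of hits is a bound for the number of representations -/
theorem Blk.rp_of_ht {P : ℕ → ℕ → ℕ → ℕ → Prop} (h : Blk P HtC) : Blk P RpC := by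
  refine h.mono (fun _ _ _ _ h => h) ?_
  rintro m k l l' w c ⟨n, rfl⟩
  exact ⟨_, Rp_le m k l l' w n, n, rfl⟩

/-- **the route through J5** -/
theorem rpc_of_free {P : ℕ → ℕ → ℕ → ℕ → Prop} (hN : ∀ m k l' l, P m k l' l → Near m k l' l)
    {m0 : ℕ} (hF : ∀ m, m0 ≤ m → FreeStmt m) (hC : Blk P CstC) (hf : Blk P FreeC) :
    Blk P RpC := by
  obtain ⟨E, m1, hC⟩ := hC
  obtain ⟨E', m2, hf⟩ := hf
  refine ⟨E + E', max m0 (max m1 m2), fun m hm => ?_⟩
  have hm0 : m0 ≤ m := (le_max_left _ _).trans hm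
  have hm1 : m1 ≤ m := (le_max_left _ _).trans ((le_max_right _ _).trans hm)
  have hm2 : m2 ≤ m := (le_max_right _ _).trans ((le_max_right _ _).trans hm)
  obtain ⟨K0, C, hF⟩ := hF m hm0
  obtain ⟨K1, C1, c1, m1', a1, a2, a3, hC⟩ := hC m hm1
  obtain ⟨K2, C2, c2, m2', b1, b2, b3, hf⟩ := hf m hm2
  refine ⟨max K0 (max K1 K2) + 1, C * C1 * (C2 + 1), min c1 c2, m1' + m2', by positivity,
    lt_min a2 b2, by positivity, ?_⟩
  intro l l' hl' hll hp K hK hK'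
  have h0 : K0 ≤ l' := by omega
  have h1 : K1 ≤ l' := by omega
  have h2 : K2 ≤ l' := by omega
  have hl1 : (1 : ℝ) ≤ (l : ℝ) := by exact_mod_cast (show 1 ≤ l by omega)
  have hl0 : (0 : ℝ) < (l : ℝ) := by linarith
  have hr1 : 1 ≤ (l : ℝ) ^ ((E : ℝ) / (m : ℝ)) := Real.one_le_rpow hl1 (by positivity)
  have hr2 : 1 ≤ (l : ℝ) ^ ((E' : ℝ) / (m : ℝ)) := Real.one_le_rpow hl1 (by positivity)
  have hsum : (l : ℝ) ^ (((E + E' : ℕ) : ℝ) / (m : ℝ)) =
      (l : ℝ) ^ ((E : ℝ) / (m : ℝ)) * (l : ℝ) ^ ((E' : ℝ) / (m : ℝ)) := by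
    rw [← Real.rpow_add hl0]
    congr 1
    push_cast
    ring
  have hA := hC l l' h1 hll hp K hK hK'
  have hB := hf l l' h2 hll hp K hK hK'
  refine PrLe_mono (fun r _ hw => ?_) ?_ (PrLe_or hA hB)
  · generalize ext K r = w at hw ⊢
    by_contra hcon
    rw [not_or] at hcon
    obtain ⟨hn1, hn2⟩ := hcon
    push Not at hn1 hn2
    obtain ⟨c, ⟨n, rfl⟩, hlt⟩ := hw
    set Mc := ⌊C1 * (l : ℝ) ^ ((E : ℝ) / (m : ℝ))⌋₊ with hMc
    set Mf := ⌊C2 * (l : ℝ) ^ ((E' : ℝ) / (m : ℝ))⌋₊ with hMf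
    have hMc' : (Mc : ℝ) ≤ C1 * (l : ℝ) ^ ((E : ℝ) / (m : ℝ)) := Nat.floor_le (by positivity)
    have hMf' : (Mf : ℝ) ≤ C2 * (l : ℝ) ^ ((E' : ℝ) / (m : ℝ)) := Nat.floor_le (by positivity)
    have hcard := hF l l' h0 hll (hN _ _ _ _ hp) w n Mc Mf
      (fun z z' => Nat.le_floor (hn1 _ ⟨n, z, z', rfl⟩))
      (fun T hT hfree => Nat.le_floor (hn2 _ ⟨n, T, hT, hfree, rfl⟩))
    have h5 : (Rp m (m ^ 2) l l' w n : ℝ) ≤ (C : ℝ) * Mc * (Mf + 1) := by
      have := (Rp_le m (m ^ 2) l l' w n).trans hcard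
      exact_mod_cast this
    have h6 : (C : ℝ) * Mc * (Mf + 1) ≤
        C * C1 * (C2 + 1) * (l : ℝ) ^ (((E + E' : ℕ) : ℝ) / (m : ℝ)) := by
      rw [hsum]
      have h7 : (Mf : ℝ) + 1 ≤ (C2 + 1) * (l : ℝ) ^ ((E' : ℝ) / (m : ℝ)) := by nlinarith
      have h8 : (0 : ℝ) ≤ (Mf : ℝ) + 1 := by positivity
      calc (C : ℝ) * Mc * (Mf + 1)
          ≤ C * (C1 * (l : ℝ) ^ ((E : ℝ) / (m : ℝ))) *
            ((C2 + 1) * (l : ℝ) ^ ((E' : ℝ) / (m : ℝ))) := by
            refine mul_le_mul (mul_le_mul_of_nonneg_left hMc' (Nat.cast_nonneg _)) h7 h8 ?_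
            positivity
        _ = _ := by ring
    linarith
  · have e1 : Real.exp (-((l : ℝ) ^ c1)) ≤ Real.exp (-((l : ℝ) ^ min c1 c2)) :=
      Real.exp_le_exp.2 (neg_le_neg (Real.rpow_le_rpow_of_exponent_le hl1 (min_le_left _ _)))
    have e2 : Real.exp (-((l : ℝ) ^ c2)) ≤ Real.exp (-((l : ℝ) ^ min c1 c2)) :=
      Real.exp_le_exp.2 (neg_le_neg (Real.rpow_le_rpow_of_exponent_le hl1 (min_le_right _ _)))
    nlinarith [mul_le_mul_of_nonneg_left e1 a3, mul_le_mul_of_nonneg_left e2 b3]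

/-! ## all pairs -/

/-- the block statements for the near pairs and the far pairs -/
structure Blocks : Prop where
  far : Blk CaseFar RpC
  bot : Blk CaseBot RpC
  botD : Blk CaseBotD RpC
  botS : Blk CaseBotS RpC
  stat : Blk CaseStat RpC
  statD : Blk CaseStatD RpC
  statS : Blk CaseStatS RpC
  inj : Blk CaseInj RpC
  two : Blk CaseTwo RpC
  mid : Blk CaseMid RpC
  crude : Blk CaseCrude RpC
  splitInj : Blk CaseSplitInj RpC
  splitTwo : Blk CaseSplitTwo RpC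
  splitMid : Blk CaseSplitMid RpC
  splitCrude : Blk CaseSplitCrude RpC

/-- every near pair without SPLIT is in one of the cases -/
theorem cover_same {m k l' l : ℕ} (hN : Near m k l' l) (hS : Same m k l' l)
    (hB : SameB m k l' l ∨ Drop m k l' l) :
    CaseBot m k l' l ∨ CaseBotD m k l' l ∨ CaseStat m k l' l ∨ CaseStatD m k l' l ∨
      CaseInj m k l' l ∨ CaseTwo m k l' l ∨ CaseMid m k l' l ∨ CaseCrude m k l' l := by
  classical
  have hbb : max (bL m k l') (bL m k l) = bL m k l := by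
    rcases hB with h | h
    · unfold SameB at h
      rw [h, max_self]
    · unfold Drop at h
      rw [max_eq_right (by omega)]
  by_cases hex : ∃ u, Cf m k l' l u
  · have hu := Nat.find_spec hex
    have hmin : ∀ v < Nat.find hex, ¬ Cf m k l' l v := fun v hv => Nat.find_min hex hv
    have hfin : FinCf m k l' l (Nat.find hex) := ⟨hu, hmin⟩
    have hge : bL m k l ≤ Nat.find hex := by
      have := hu.1
      rwa [hbb] at this
    rcases Nat.eq_or_lt_of_le hge with he | hlt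
    · have hfin' : FinCf m k l' l (bL m k l) := by
        rw [he]
        exact hfin
      rcases hB with h | h
      · exact Or.inl ⟨hN, hS, h, hfin'⟩
      · exact Or.inr (Or.inl ⟨hN, hS, h, hfin'⟩)
    · rcases hB with h | h
      · exact Or.inr (Or.inr (Or.inl ⟨hN, hS, h, _, hlt, hfin⟩))
      · exact Or.inr (Or.inr (Or.inr (Or.inl ⟨hN, hS, h, _, hlt, hfin⟩)))
  · push Not at hex
    refine Or.inr (Or.inr (Or.inr (Or.inr ?_)))
    by_cases h1 : l ≤ ef m k l' 0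
    · exact Or.inl ⟨⟨hN, hex⟩, hS, h1⟩
    · by_cases h2 : 20 * (l - l') < 7 * SS m (sL m k l)
      · exact Or.inr (Or.inl ⟨hN, hS, by omega, h2⟩)
      · by_cases h3 : l - l' < 200 * SS m (sL m k l)
        · exact Or.inr (Or.inr (Or.inl ⟨hN, hS, by omega, h3⟩))
        · exact Or.inr (Or.inr (Or.inr ⟨hN, hS, by omega⟩))

/-- every near pair with a SPLIT is in one of the cases -/
theorem cover_split {m k l' l : ℕ} (hN : Near m k l' l) (hS : Split m k l' l) :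
    CaseBotS m k l' l ∨ CaseStatS m k l' l ∨ CaseSplitInj m k l' l ∨ CaseSplitTwo m k l' l ∨
      CaseSplitMid m k l' l ∨ CaseSplitCrude m k l' l := by
  classical
  have hbb : max (bL m k l') (bL m k l) = bL m k l := by rw [hS.2, max_self]
  by_cases hex : ∃ u, Cf m k l' l u
  · have hu := Nat.find_spec hex
    have hmin : ∀ v < Nat.find hex, ¬ Cf m k l' l v := fun v hv => Nat.find_min hex hv
    have hfin : FinCf m k l' l (Nat.find hex) := ⟨hu, hmin⟩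
    have hge : bL m k l ≤ Nat.find hex := by
      have := hu.1
      rwa [hbb] at this
    rcases Nat.eq_or_lt_of_le hge with he | hlt
    · refine Or.inl ⟨hN, hS, ?_⟩
      rw [he]
      exact hfin
    · exact Or.inr (Or.inl ⟨hN, hS, _, hlt, hfin⟩)
  · push Not at hex
    refine Or.inr (Or.inr ?_)
    by_cases h1 : l ≤ ef m k l' 0
    · exact Or.inl ⟨⟨hN, hex⟩, hS, h1⟩
    · by_cases h2 : l - l' < 8 * SS m (sL m k l')
      · exact Or.inr (Or.inl ⟨hN, hS, by omega, h2⟩)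
      · by_cases h3 : l - l' < 200 * SS m (sL m k l)
        · exact Or.inr (Or.inr (Or.inl ⟨hN, hS, by omega, h3⟩))
        · exact Or.inr (Or.inr (Or.inr ⟨hN, hS, by omega⟩))

/-- **all pairs** -/
theorem pair_all (h : Blocks) : Blk (fun _ _ _ _ => True) RpC := by
  obtain ⟨E, m0, hall⟩ := ((((h.bot.or (h.botD.or (h.stat.or (h.statD.or
    (h.inj.or (h.two.or (h.mid.or h.crude)))))))).or
    (h.botS.or (h.statS.or (h.splitInj.or (h.splitTwo.or
      (h.splitMid.or h.splitCrude)))))).or h.far)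
  refine ⟨E, m0 + 1, fun m hm => ?_⟩
  obtain ⟨K1, hev⟩ := Pool.Agent.Helper37.T5b.oneEvent m (by omega)
  obtain ⟨K0, C1, c0, m', b1, b2, b3, hp⟩ := hall m (by omega)
  refine ⟨max K0 K1, C1, c0, m', b1, b2, b3, ?_⟩
  intro l l' hl' hll _ K hK hK'
  refine hp l l' ((le_max_left _ _).trans hl') hll ?_ K hK hK'
  by_cases hN : Near m (m ^ 2) l' l
  · left
    rcases hev l l' ((le_max_right _ _).trans hl') hll hN with h1 | h1 | h1
    · exact Or.inl (cover_same hN h1.1 (Or.inl h1.2))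
    · exact Or.inl (cover_same hN h1.1 (Or.inr h1.2))
    · exact Or.inr (cover_split hN h1)
  · exact Or.inr hN

/-! ## T5b -/

/-- **T5b** from the blocks -/
theorem t5b_of (h : Blocks) (ε : ℝ) (hε : 0 < ε) : ∃ (A : Set ℕ) (C : ℝ) (D : ℕ), 0 < C ∧
    (∀ n : ℕ, 2 ≤ n →
      (({q : ℕ × ℕ | q.1 ∈ A ∧ q.2 ∈ A ∧ q.1 + q.2 = n}.ncard : ℕ) : ℝ) ≤
        C * (Real.log n) ^ ε) ∧
    (∀ x : ℕ, 2 ≤ x →
      Real.sqrt x / (C * (Real.log x) ^ D) ≤ ((A ∩ Set.Iio x).ncard : ℝ)) := by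
  obtain ⟨E, m0, hpair⟩ := pair_all h
  obtain ⟨m1, hm1⟩ := exists_nat_gt ((E : ℝ) / ε)
  set m := max m0 m1 + 1 with hm
  have hm0 : 0 < m := by omega
  have hkE : (E : ℝ) / (m : ℝ) ≤ ε := by
    have h2 : (0 : ℝ) < (m : ℝ) := by exact_mod_cast hm0
    rw [div_le_iff₀ h2]
    rw [div_lt_iff₀ hε] at hm1
    have h3 : (m1 : ℝ) ≤ (m : ℝ) := by
      exact_mod_cast (le_max_right m0 m1).trans (by omega)
    nlinarith
  obtain ⟨Ka, C1, c0, m', g1, g2, g3, hp⟩ := hpair m (by omega)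
  obtain ⟨Kb, hrange⟩ := Pool.Agent.Helper27.T5b.exists_AA_range hm0 (m ^ 2)
  obtain ⟨Kc, C2, hC2, hcount⟩ := Pool.Agent.Helper50.T5b.count_all hm0 (m ^ 2)
  obtain ⟨A, C, hC, r1, r2⟩ := full_final_of_pairs (κ := Key) (M := Mk m (m ^ 2))
    (Mk_pos m (m ^ 2)) (keysOf m (m ^ 2)) (AA m (m ^ 2)) (N := NL m (m ^ 2))
    (two_NL_le m (m ^ 2)) (NL_pos m (m ^ 2) 0) (K0 := max Ka (max Kb (max Kc 1)))
    (m := 10 + 3 * m ^ 2) (Λ := BP (m ^ 2)) (NL_succ_le m (m ^ 2)) (C := C2) (C1 := C1) (ε := ε)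
    (c0 := c0) (m' := m') hC2 g1 hε.le g2 g3
    (fun l hl w _ a ha => by
      have := hrange l (by omega) w a ha
      exact ⟨this.1, this.2.2⟩)
    (fun l hl w hw => hcount l (by omega) w hw)
    (by
      intro l l' hl' hll K hK hK'
      refine PrLe_mono (fun w _ hw => ?_) le_rfl (hp l l' (by omega) hll trivial K hK hK')
      obtain ⟨n, hn⟩ := hw
      refine ⟨_, ⟨n, rfl⟩, lt_of_le_of_lt (mul_le_mul_of_nonneg_left ?_ g1) hn⟩
      exact Real.rpow_le_rpow_of_exponent_le (by exact_mod_cast (show 1 ≤ l by omega)) hkE)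
  exact ⟨A, C, 10 + 3 * m ^ 2 + 2, hC, r1, r2⟩

end Pool.Agent.Helper84.T5b
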