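import Pool.Agent.Helper84.T5b.Defs
import Pool.Agent.Helper37.T5b.Ev

/-!
# T5b (MP_12a1af): the shape of the pair statements, the cases, the block statements

There is one parameter `m`; the number of active static levels is `k = m ^ 2`, so that the last
window has `SS m (s - k) ≤ l ^ (1 / 2 ^ m)` digits.  All bounds are `C1 * l ^ (E / m)` with an
absolute `E`.

`PairOK m P Ct E`: for all states `l' ≤ l` with `P l' l`, with probability at least
`1 - m' exp (-l ^ c0)` all counts `c` with `Ct l l' w c` are at most `C1 l ^ (E / m)`.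
-/

set_option autoImplicit false


namespace Pool.Agent.Helper84.T5b

open Finset Pool.Agent.Helper5.ET Pool.Agent.Helper37.T5b Pool.Agent.Helper30.T5b
open Pool.Agent.Helper42.T5.Pr

/-! ## parameters of the elements and hits -/

/-- parameters of an element of the state `l`: joint vector, static vectors, window part -/
abbrev Par (m k l : ℕ) : Type := ((JF → ℕ) × (Fin (rL m k l) → Fin 3 → ℕ)) × ℕ

/-- the parameters of the state `l` -/
noncomputable def Pm (m k l : ℕ) (w : Key → ℕ) : Finset (Par m k l) :=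
  (XJ m k l ×ˢ Fintype.piFinset (fun t : Fin (rL m k l) => Ys m k l t)) ×ˢ
    (Vw m k l w).image (fun v => Un m k l * v)

/-- the element with the given parameters -/
noncomputable def val (m k l : ℕ) (w : Key → ℕ) (q : Par m k l) : ℕ := el m k l w q.1.1 q.1.2 q.2

theorem AA_eq (m k l : ℕ) (w : Key → ℕ) : AA m k l w = (Pm m k l w).image (val m k l w) := by
  unfold AA Pm val
  with_reducible rfl

/-- the hits: pairs of parameters with `a + a' = n` -/
noncomputable def Hts (m k l l' : ℕ) (w : Key → ℕ) (n : ℕ) : Finset (Par m k l × Par m k l') :=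
  (Pm m k l w ×ˢ Pm m k l' w).filter (fun q => val m k l w q.1 + val m k l' w q.2 = n)

theorem Rp_le (m k l l' : ℕ) (w : Key → ℕ) (n : ℕ) : Rp m k l l' w n ≤ (Hts m k l l' w n).card := by
  have hsub : (AA m k l w ×ˢ AA m k l' w).filter (fun q => q.1 + q.2 = n) ⊆
      (Hts m k l l' w n).image (fun q => (val m k l w q.1, val m k l' w q.2)) := by
    rintro ⟨a, a'⟩ ha
    rw [mem_filter, mem_product, AA_eq, AA_eq, mem_image, mem_image] at ha
    obtain ⟨⟨⟨q, hq, rfl⟩, q', hq', rfl⟩, hs⟩ := ha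
    rw [mem_image]
    refine ⟨(q, q'), ?_, rfl⟩
    unfold Hts
    exact mem_filter.2 ⟨mem_product.2 ⟨hq, hq'⟩, hs⟩
  unfold Rp
  exact (card_le_card hsub).trans card_image_le

/-! ## the counts -/

/-- representations -/
def RpC (m k : ℕ) (l l' : ℕ) (w : Key → ℕ) (c : ℕ) : Prop := ∃ n, c = Rp m k l l' w n

/-- hits -/
def HtC (m k : ℕ) (l l' : ℕ) (w : Key → ℕ) (c : ℕ) : Prop := ∃ n, c = (Hts m k l l' w n).card

/-- hits with given joint vectors on both sides -/
def LeafC (m k : ℕ) (l l' : ℕ) (w : Key → ℕ) (c : ℕ) : Prop :=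
  ∃ (n : ℕ) (x x' : JF → ℕ),
    c = ((Hts m k l l' w n).filter (fun q => q.1.1.1 = x ∧ q.2.1.1 = x')).card

/-- hits with given main vectors on both sides -/
def CstC (m k : ℕ) (l l' : ℕ) (w : Key → ℕ) (c : ℕ) : Prop :=
  ∃ (n : ℕ) (z z' : Fin 3 → ℕ), c = ((Hts m k l l' w n).filter
    (fun q => (∀ f, q.1.1.1 (Sum.inl f) = z f) ∧ ∀ f, q.2.1.1 (Sum.inl f) = z' f)).card

/-- the main families which own a digit in `[l', l)` -/
noncomputable def mov (m k l' l : ℕ) : Finset (Fin 3) :=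
  univ.filter (fun f => cnt f (mL m k l') < cnt f (mL m k l))

/-- the vectors of the moving main families are pairwise different, on both sides -/
def Free (m k l l' : ℕ) (T : Finset (Par m k l × Par m k l')) : Prop :=
  ∀ q ∈ T, ∀ r ∈ T, q ≠ r → (∃ f ∈ mov m k l' l, q.1.1.1 (Sum.inl f) ≠ r.1.1.1 (Sum.inl f)) ∧
    ∃ f ∈ mov m k l' l, q.2.1.1 (Sum.inl f) ≠ r.2.1.1 (Sum.inl f)

/-- free sets of hits -/
def FreeC (m k : ℕ) (l l' : ℕ) (w : Key → ℕ) (c : ℕ) : Prop :=
  ∃ n, ∃ T ⊆ Hts m k l l' w n, Free m k l l' T ∧ c = T.card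

/-! ## the shape of the statements -/

/-- bound for the counts `Ct` of the pairs of states with the property `P`, `k = m ^ 2` -/
def PairOK (m : ℕ) (P : ℕ → ℕ → Prop) (Ct : ℕ → ℕ → (Key → ℕ) → ℕ → Prop) (E : ℕ) : Prop :=
  ∃ (K0 : ℕ) (C1 c0 m' : ℝ), 0 ≤ C1 ∧ 0 < c0 ∧ 0 ≤ m' ∧
    ∀ l l', K0 ≤ l' → l' ≤ l → P l' l →
    ∀ K : Finset Key, keysOf m (m ^ 2) l ⊆ K → keysOf m (m ^ 2) l' ⊆ K →
    PrLe (Mk m (m ^ 2)) K (fun w => ∃ c, Ct l l' w c ∧ C1 * (l : ℝ) ^ ((E : ℝ) / (m : ℝ)) < (c : ℝ))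
      (m' * Real.exp (-((l : ℝ) ^ c0)))

/-- a block: the counts `Ct` of the pairs `P` are bounded, for all large `m` -/
def Blk (P : ℕ → ℕ → ℕ → ℕ → Prop) (Ct : ℕ → ℕ → ℕ → ℕ → (Key → ℕ) → ℕ → Prop) : Prop :=
  ∃ E m0 : ℕ, ∀ m, m0 ≤ m → PairOK m (P m (m ^ 2)) (Ct m (m ^ 2)) E

/-! ## the cases -/

/-- near pairs: at most one event between the two states -/
def Near (m k l' l : ℕ) : Prop := 4 * (mL m k l - mL m k l') < ZZ m k (era (mL m k l'))

/-- the front of the size `SS m u` is common and it is the front of a static level of `l` -/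
def Cf (m k l' l u : ℕ) : Prop :=
  max (bL m k l') (bL m k l) ≤ u ∧ u < sL m k l ∧ ez m u l' = ez m u l

/-- `u` is the finest common front -/
def FinCf (m k l' l u : ℕ) : Prop := Cf m k l' l u ∧ ∀ v < u, ¬ Cf m k l' l v

/-- near, no common front of a static level of `l` -/
def Zero (m k l' l : ℕ) : Prop := Near m k l' l ∧ ∀ u, ¬ Cf m k l' l u

/-- no SPLIT between the states -/
def Same (m k l' l : ℕ) : Prop := sL m k l' = sL m k l

/-- no DROP between the states -/
def SameB (m k l' l : ℕ) : Prop := bL m k l' = bL m k l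

/-- one DROP between the states -/
def Drop (m k l' l : ℕ) : Prop := bL m k l' + 1 = bL m k l

/-- one SPLIT between the states (and no DROP) -/
def Split (m k l' l : ℕ) : Prop := sL m k l' + 1 = sL m k l ∧ bL m k l' = bL m k l

/-- (FAR) -/
def CaseFar (m k l' l : ℕ) : Prop := ¬ Near m k l' l

/-- (A), all fronts common (`l' = l` included) -/
def CaseBot (m k l' l : ℕ) : Prop :=
  Near m k l' l ∧ Same m k l' l ∧ SameB m k l' l ∧ FinCf m k l' l (bL m k l)

/-- (A), all fronts common, across DROP -/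
def CaseBotD (m k l' l : ℕ) : Prop :=
  Near m k l' l ∧ Same m k l' l ∧ Drop m k l' l ∧ FinCf m k l' l (bL m k l)

/-- (A), all fronts common, across SPLIT -/
def CaseBotS (m k l' l : ℕ) : Prop :=
  Near m k l' l ∧ Split m k l' l ∧ FinCf m k l' l (bL m k l)

/-- (A), not all fronts common -/
def CaseStat (m k l' l : ℕ) : Prop := Near m k l' l ∧ Same m k l' l ∧ SameB m k l' l ∧
  ∃ u, bL m k l < u ∧ FinCf m k l' l u

/-- (A), not all fronts common, across DROP -/
def CaseStatD (m k l' l : ℕ) : Prop := Near m k l' l ∧ Same m k l' l ∧ Drop m k l' l ∧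
  ∃ u, bL m k l < u ∧ FinCf m k l' l u

/-- (A), not all fronts common, across SPLIT -/
def CaseStatS (m k l' l : ℕ) : Prop := Near m k l' l ∧ Split m k l' l ∧
  ∃ u, bL m k l < u ∧ FinCf m k l' l u

/-- (B1): the digits between the states are below the joint front of `l'` -/
def CaseInj (m k l' l : ℕ) : Prop := Zero m k l' l ∧ Same m k l' l ∧ l ≤ ef m k l' 0

/-- the digits between the states are not below the joint front of `l'` -/
def CaseUp (m k l' l : ℕ) : Prop := Near m k l' l ∧ Same m k l' l ∧ ef m k l' 0 < l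

/-- (B2) -/
def CaseTwo (m k l' l : ℕ) : Prop := Near m k l' l ∧ Same m k l' l ∧ ef m k l' 0 < l ∧
  20 * (l - l') < 7 * SS m (sL m k l)

/-- (B2), middle -/
def CaseMid (m k l' l : ℕ) : Prop := Near m k l' l ∧ Same m k l' l ∧
  7 * SS m (sL m k l) ≤ 20 * (l - l') ∧ l - l' < 200 * SS m (sL m k l)

/-- (B2), (B3), (B4), crude -/
def CaseCrude (m k l' l : ℕ) : Prop := Near m k l' l ∧ Same m k l' l ∧
  200 * SS m (sL m k l) ≤ l - l'

/-- (B5), short distance, below the joint front of `l'` -/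
def CaseSplitInj (m k l' l : ℕ) : Prop := Zero m k l' l ∧ Split m k l' l ∧ l ≤ ef m k l' 0

/-- (B5), short distance, above the joint front of `l'` -/
def CaseSplitTwo (m k l' l : ℕ) : Prop := Near m k l' l ∧ Split m k l' l ∧ ef m k l' 0 < l ∧
  l - l' < 8 * SS m (sL m k l')

/-- (B5), middle -/
def CaseSplitMid (m k l' l : ℕ) : Prop := Near m k l' l ∧ Split m k l' l ∧
  8 * SS m (sL m k l') ≤ l - l' ∧ l - l' < 200 * SS m (sL m k l)

/-- (B5), crude -/
def CaseSplitCrude (m k l' l : ℕ) : Prop := Near m k l' l ∧ Split m k l' l ∧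
  200 * SS m (sL m k l) ≤ l - l'

/-- near, across SPLIT -/
def CaseSplit (m k l' l : ℕ) : Prop := Near m k l' l ∧ Split m k l' l

/-! ## the block statements -/

/-- RANGE -/
def RangeStmt (m : ℕ) : Prop := ∃ K0 : ℕ, ∀ l, K0 ≤ l →
    ∀ w : Key → ℕ, (∀ q, w q < Mk m (m ^ 2) q) → ∀ a ∈ AA m (m ^ 2) l w,
      NL m (m ^ 2) l ≤ a ∧ a < NL m (m ^ 2) (l + 1)

/-- COUNT -/
def CountStmt (m : ℕ) : Prop := ∃ (K0 c : ℕ) (C : ℝ), 0 < C ∧ ∀ l, K0 ≤ l →
    ∀ w : Key → ℕ, (∀ q, w q < Mk m (m ^ 2) q) →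
      Real.sqrt (NL m (m ^ 2) l) ≤ C * (l : ℝ) ^ c * ((AA m (m ^ 2) l w).card : ℝ)

/-- SCHEDULE: at most one event in a near pair -/
def OneEventStmt (m : ℕ) : Prop := ∃ K0 : ℕ, ∀ l l', K0 ≤ l' → l' ≤ l →
  Near m (m ^ 2) l' l → (Same m (m ^ 2) l' l ∧ SameB m (m ^ 2) l' l) ∨
    (Same m (m ^ 2) l' l ∧ Drop m (m ^ 2) l' l) ∨ Split m (m ^ 2) l' l

/-- J5: extraction; if the hits with given main vectors are at most `Mc` and the free sets of hits
have at most `Mf` elements, there are at most `C Mc (Mf + 1)` hits -/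
def FreeStmt (m : ℕ) : Prop := ∃ K0 C : ℕ, ∀ l l', K0 ≤ l' → l' ≤ l → Near m (m ^ 2) l' l →
  ∀ (w : Key → ℕ) (n Mc Mf : ℕ),
    (∀ z z' : Fin 3 → ℕ, ((Hts m (m ^ 2) l l' w n).filter
      (fun q => (∀ f, q.1.1.1 (Sum.inl f) = z f) ∧ ∀ f, q.2.1.1 (Sum.inl f) = z' f)).card ≤ Mc) →
    (∀ T ⊆ Hts m (m ^ 2) l l' w n, Free m (m ^ 2) l l' T → T.card ≤ Mf) →
    (Hts m (m ^ 2) l l' w n).card ≤ C * Mc * (Mf + 1)

end Pool.Agent.Helper84.T5b
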